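import Mathlib
import Pool.Agent.H10EN.Mean

open MeasureTheory Filter Topology

namespace Pool.Agent.Results.MP_e30989_nt.MeanZeroDeterministic

/-- The closed unit disc of the complex plane. -/
abbrev Disc : Type := Metric.closedBall (0 : ℂ) 1

/-- `f : ℕ → 𝕌` is multiplicative: `f 1 = 1` and `f (m n) = f m * f n` for coprime positive `m, n`. -/
def IsMult (f : ℕ → Disc) : Prop :=
  (f 1 : ℂ) = 1 ∧ ∀ m n : ℕ, 0 < m → 0 < n → Nat.Coprime m n →
    (f (m * n) : ℂ) = (f m : ℂ) * (f n : ℂ)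

/-- `f` is pretentious: there are a Dirichlet character `χ` and a real `t` with
`∑_p (1 - Re (f(p) conj(χ(p)) p^{-it})) / p < ∞`. -/
def Pretentious (f : ℕ → Disc) : Prop :=
  ∃ (q : ℕ) (χ : DirichletCharacter ℂ q) (t : ℝ), 0 < q ∧
    Summable (fun p : Nat.Primes =>
      (1 - ((f p : ℂ) * (starRingEnd ℂ) (χ ((p : ℕ) : ZMod q)) *
        ((p : ℕ) : ℂ) ^ (-(t : ℂ) * Complex.I)).re) / ((p : ℕ) : ℝ))

/-- The sequence space `𝕌^ℤ` (product topology and product σ-algebra). -/
abbrev X : Type := ℤ → Disc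

/-- The left shift on `𝕌^ℤ`. -/
def shift (x : X) : X := fun n => x (n + 1)

/-- The zero element of the disc. -/
def zeroD : Disc := ⟨0, by simp⟩

/-- The point `x_f` of `𝕌^ℤ`: `f n` at positive `n`, and `0` at `n ≤ 0`. -/
def point (f : ℕ → Disc) : X := fun n => if 0 < n then f n.toNat else zeroD

/-- `μ` is the measure of a Furstenberg system of `f` for Cesàro averages: `μ` is a Borel
probability measure on `𝕌^ℤ` and for some `N_k → ∞` the measures
`(1/N_k) ∑_{n=1}^{N_k} δ_{T^n x_f}` converge weak-* to `μ`. -/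
def IsFurstenberg (f : ℕ → Disc) (μ : Measure X) : Prop :=
  IsProbabilityMeasure μ ∧ ∃ N : ℕ → ℕ, Tendsto N atTop atTop ∧
    ∀ g : C(X, ℝ), Tendsto
      (fun k => (∑ n ∈ Finset.Icc 1 (N k), g (shift^[n] (point f))) / (N k : ℝ))
      atTop (𝓝 (∫ x, g x ∂μ))

/-- Shannon entropy of the partition `⋁_{i<n} T^{-i} ξ`, for a finite measurable partition given
by its labelling map `ξ : X → Fin k`. -/
noncomputable def jointEntropy (μ : Measure X) {k : ℕ} (ξ : X → Fin k) (n : ℕ) : ℝ :=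
  ∑ w : Fin n → Fin k, Real.negMulLog (μ.real {x | ∀ i : Fin n, ξ (shift^[(i : ℕ)] x) = w i})

/-- Kolmogorov–Sinai entropy of the shift for `μ`: the supremum over finite measurable partitions
`ξ` of `limsup_n (1/n) H(⋁_{i<n} T^{-i} ξ)`. -/
noncomputable def ksEntropy (μ : Measure X) : ENNReal :=
  ⨆ (k : ℕ) (ξ : X → Fin k) (_ : Measurable ξ),
    limsup (fun n : ℕ => ENNReal.ofReal (jointEntropy μ ξ n / n)) atTop

/-- `f` is completely deterministic for Cesàro averages. -/
def CompletelyDeterministic (f : ℕ → Disc) : Prop :=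
  ∀ μ : Measure X, IsFurstenberg f μ → ksEntropy μ = 0

lemma shift_iter (n : ℕ) (x : X) (j : ℤ) : (shift^[n] x) j = x (j + n) := by
  induction n generalizing x j with
  | zero => simp
  | succ n ih =>
    rw [Function.iterate_succ, Function.comp, ih]
    unfold shift
    congr 1
    push_cast
    ring

/-- coordinate norm as a continuous function -/
noncomputable def coordNorm (j : ℤ) : C(X, ℝ) :=
  ⟨fun x => ‖(x j : ℂ)‖, by fun_prop⟩

lemma norm_disc_le (z : Disc) : ‖(z : ℂ)‖ ≤ 1 := mem_closedBall_zero_iff.1 z.2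

/-- the shifted sum differs by a bounded amount -/
lemma sum_shift_nat (a : ℤ → ℝ) (h0 : ∀ m, 0 ≤ a m) (h1 : ∀ m, a m ≤ 1) (c : ℤ) (N k : ℕ) :
    |∑ n ∈ Finset.Icc 1 N, a (c + k + (n : ℕ)) - ∑ n ∈ Finset.Icc 1 N, a (c + (n : ℕ))| ≤ k := by
  have hstep : ∀ (b : ℤ) (N : ℕ), ∑ n ∈ Finset.Icc 1 N, a (b + 1 + (n : ℕ)) -
        ∑ n ∈ Finset.Icc 1 N, a (b + (n : ℕ)) = a (b + 1 + N) - a (b + 1) := by
      intro b N
      induction N with
      | zero => simp
      | succ N ihN =>
        rw [Finset.sum_Icc_succ_top (by omega), Finset.sum_Icc_succ_top (by omega)]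
        have e : a (b + ((N + 1 : ℕ) : ℤ)) = a (b + 1 + N) := by
          congr 1; push_cast; ring
        rw [e]
        linarith
  induction k with
  | zero => simp
  | succ k ih =>
    have e1 : ∑ n ∈ Finset.Icc 1 N, a (c + ((k + 1 : ℕ) : ℤ) + (n : ℕ)) =
        ∑ n ∈ Finset.Icc 1 N, a ((c + k) + 1 + (n : ℕ)) := by
      refine Finset.sum_congr rfl fun n _ => ?_
      congr 1
      push_cast
      ring
    rw [e1]
    have e2 := hstep (c + k) N
    have e3 : |a (c + k + 1 + N) - a (c + k + 1)| ≤ 1 := by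
      rw [abs_le]
      constructor
      · linarith [h0 (c + k + 1 + N), h1 (c + k + 1)]
      · linarith [h1 (c + k + 1 + N), h0 (c + k + 1)]
    have e4 : ∑ n ∈ Finset.Icc 1 N, a (c + k + 1 + (n : ℕ)) - ∑ n ∈ Finset.Icc 1 N, a (c + (n : ℕ))
        = (∑ n ∈ Finset.Icc 1 N, a (c + k + (n : ℕ)) - ∑ n ∈ Finset.Icc 1 N, a (c + (n : ℕ))) +
          (a (c + k + 1 + N) - a (c + k + 1)) := by
      rw [← e2]; ring
    rw [e4]
    calc _ ≤ |∑ n ∈ Finset.Icc 1 N, a (c + k + (n : ℕ)) -
            ∑ n ∈ Finset.Icc 1 N, a (c + (n : ℕ))| + |a (c + k + 1 + N) - a (c + k + 1)| :=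
          abs_add_le _ _
      _ ≤ k + 1 := add_le_add ih e3
      _ = ((k + 1 : ℕ) : ℝ) := by push_cast; ring

lemma sum_shift_int (a : ℤ → ℝ) (h0 : ∀ m, 0 ≤ a m) (h1 : ∀ m, a m ≤ 1) (j : ℤ) (N : ℕ) :
    |∑ n ∈ Finset.Icc 1 N, a (j + (n : ℕ)) - ∑ n ∈ Finset.Icc 1 N, a ((n : ℕ) : ℤ)|
      ≤ |(j : ℝ)| := by
  rcases Int.eq_nat_or_neg j with ⟨k, hk | hk⟩
  · have := sum_shift_nat a h0 h1 0 N k
    subst hk
    simpa using this
  · have := sum_shift_nat a h0 h1 (-(k : ℤ)) N k
    subst hk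
    rw [abs_sub_comm]
    simpa using this

theorem coord_integral {f : ℕ → Disc} (hf : IsMult f)
    (hns : ¬ Summable (fun p : Nat.Primes => (1 - ‖(f p : ℂ)‖) / ((p : ℕ) : ℝ)))
    {μ : Measure X} (hμ : IsFurstenberg f μ) (j : ℤ) : ∫ x, ‖(x j : ℂ)‖ ∂μ = 0 := by
  obtain ⟨hprob, N, hN, hlim⟩ := hμ
  have hl := hlim (coordNorm j)
  have hmul : ∀ m n : ℕ, Nat.Coprime m n → (f (m * n) : ℂ) = (f m : ℂ) * (f n : ℂ) := by
    intro m n hmn
    rcases Nat.eq_zero_or_pos m with rfl | hm
    · have hn1 : n = 1 := by simpa using hmn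
      subst hn1
      simp [hf.1]
    · rcases Nat.eq_zero_or_pos n with rfl | hn
      · have hm1 : m = 1 := by simpa using hmn
        subst hm1
        simp [hf.1]
      · exact hf.2 m n hm hn hmn
  have hmean := Pool.Agent.H10EN.mean_norm_tendsto (F := fun n => (f n : ℂ)) hmul
    (fun n => norm_disc_le (f n)) hns
  have hmean' := hmean.comp hN
  have hN' : Tendsto (fun k => |(j : ℝ)| / (N k : ℝ)) atTop (𝓝 0) :=
    Tendsto.div_atTop tendsto_const_nhds (tendsto_natCast_atTop_atTop.comp hN)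
  have hsum := hmean'.add hN'
  rw [add_zero] at hsum
  have hz : Tendsto
      (fun k => (∑ n ∈ Finset.Icc 1 (N k), coordNorm j (shift^[n] (point f))) / (N k : ℝ))
      atTop (𝓝 0) := by
    refine tendsto_of_tendsto_of_tendsto_of_le_of_le tendsto_const_nhds hsum ?_ ?_
    · intro k
      refine div_nonneg (Finset.sum_nonneg fun n _ => ?_) (Nat.cast_nonneg _)
      exact norm_nonneg (((shift^[n] (point f)) j : Disc) : ℂ)
    · intro k
      have hb := sum_shift_int (fun m => ‖(point f m : ℂ)‖) (fun m => norm_nonneg _)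
        (fun m => norm_disc_le _) j (N k)
      have hb2 := (abs_le.1 hb).2
      have e1 : ∑ n ∈ Finset.Icc 1 (N k), coordNorm j (shift^[n] (point f)) =
          ∑ n ∈ Finset.Icc 1 (N k), ‖(point f (j + (n : ℕ)) : ℂ)‖ := by
        refine Finset.sum_congr rfl fun n _ => ?_
        change ‖((shift^[n] (point f)) j : ℂ)‖ = _
        rw [shift_iter]
      have e2 : ∑ n ∈ Finset.Icc 1 (N k), ‖(point f ((n : ℕ) : ℤ) : ℂ)‖ =
          ∑ n ∈ Finset.Icc 1 (N k), ‖(f n : ℂ)‖ := by
        refine Finset.sum_congr rfl fun n hn => ?_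
        have hn1 : 0 < n := (Finset.mem_Icc.1 hn).1
        unfold point
        rw [if_pos (by exact_mod_cast hn1), Int.toNat_natCast]
      simp only [Function.comp]
      rw [e1, ← add_div]
      refine div_le_div_of_nonneg_right ?_ (Nat.cast_nonneg _)
      rw [← e2]
      linarith
  exact tendsto_nhds_unique hl hz

theorem eq_dirac {f : ℕ → Disc} (hf : IsMult f)
    (hns : ¬ Summable (fun p : Nat.Primes => (1 - ‖(f p : ℂ)‖) / ((p : ℕ) : ℝ)))
    {μ : Measure X} (hμ : IsFurstenberg f μ) : μ = Measure.dirac (fun _ => zeroD) := by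
  have : IsProbabilityMeasure μ := hμ.1
  have hcoord : ∀ j : ℤ, ∀ᵐ x ∂μ, x j = zeroD := by
    intro j
    have h := coord_integral hf hns hμ j
    have hint : Integrable (fun x : X => ‖(x j : ℂ)‖) μ := by
      refine Integrable.of_bound (C := 1) ?_ ?_
      · exact (coordNorm j).continuous.aestronglyMeasurable
      · refine Filter.Eventually.of_forall fun x => ?_
        simpa using norm_disc_le (x j)
    rw [integral_eq_zero_iff_of_nonneg (fun x => norm_nonneg _) hint] at h
    filter_upwards [h] with x hx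
    apply Subtype.ext
    simpa [zeroD] using hx
  have hall : ∀ᵐ x ∂μ, x = fun _ => zeroD := by
    filter_upwards [ae_all_iff.2 hcoord] with x hx
    funext j
    exact hx j
  ext s hs
  by_cases hz : (fun _ => zeroD : X) ∈ s
  · rw [Measure.dirac_apply_of_mem hz]
    have h1 : μ sᶜ = 0 := by
      rw [← mem_ae_iff]
      filter_upwards [hall] with x hx
      rw [hx]
      exact hz
    exact (prob_compl_eq_zero_iff hs).1 h1
  · rw [Measure.dirac_apply]
    simp only [Set.indicator, hz, if_false]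
    have : ∀ᵐ x ∂μ, x ∉ s := by
      filter_upwards [hall] with x hx
      rw [hx]; exact hz
    exact measure_eq_zero_iff_ae_notMem.2 this

theorem ksEntropy_dirac (z : X) : ksEntropy (Measure.dirac z) = 0 := by
  unfold ksEntropy
  simp only [ENNReal.iSup_eq_zero]
  intro k ξ _
  have hz : ∀ n, jointEntropy (Measure.dirac z) ξ n = 0 := by
    intro n
    unfold jointEntropy
    refine Finset.sum_eq_zero fun w _ => ?_
    unfold Measure.real
    rw [Measure.dirac_apply]
    by_cases h : z ∈ {x | ∀ i : Fin n, ξ (shift^[(i : ℕ)] x) = w i}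
    · simp [Set.indicator, h]
    · simp [Set.indicator, h]
  simp [hz]

theorem not_pretentious {f : ℕ → Disc}
    (hns : ¬ Summable (fun p : Nat.Primes => (1 - ‖(f p : ℂ)‖) / ((p : ℕ) : ℝ))) :
    ¬ Pretentious f := by
  rintro ⟨q, χ, t, _, hs⟩
  apply hns
  refine Summable.of_nonneg_of_le (fun p => ?_) (fun p => ?_) hs
  · exact div_nonneg (by linarith [norm_disc_le (f p)]) (Nat.cast_nonneg _)
  · refine div_le_div_of_nonneg_right ?_ (Nat.cast_nonneg _)
    have hp0 : (0:ℝ) < ((p : ℕ) : ℝ) := by exact_mod_cast p.2.pos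
    have h1 : ‖((p : ℕ) : ℂ) ^ (-(t : ℂ) * Complex.I)‖ = 1 := by
      rw [← Complex.ofReal_natCast, Complex.norm_cpow_eq_rpow_re_of_pos hp0]
      simp
    have h2 : ‖(starRingEnd ℂ) (χ ((p : ℕ) : ZMod q))‖ ≤ 1 := by
      rw [RCLike.norm_conj]
      exact χ.norm_le_one _
    have h3 : ((f p : ℂ) * (starRingEnd ℂ) (χ ((p : ℕ) : ZMod q)) *
        ((p : ℕ) : ℂ) ^ (-(t : ℂ) * Complex.I)).re ≤ ‖(f p : ℂ)‖ := by
      refine (Complex.re_le_norm _).trans ?_
      rw [norm_mul, norm_mul, h1, mul_one]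
      calc ‖(f p : ℂ)‖ * ‖(starRingEnd ℂ) (χ ((p : ℕ) : ZMod q))‖ ≤ ‖(f p : ℂ)‖ * 1 :=
            mul_le_mul_of_nonneg_left h2 (norm_nonneg _)
        _ = ‖(f p : ℂ)‖ := mul_one _
    linarith

/-- The completely multiplicative function `n ↦ 2^{-Ω(n)}`. -/
noncomputable def halfOmega (n : ℕ) : Disc :=
  ⟨((1 / 2 : ℝ) ^ (ArithmeticFunction.cardFactors n) : ℝ), by
    rw [mem_closedBall_zero_iff, Complex.norm_real, Real.norm_eq_abs, abs_pow]
    exact pow_le_one₀ (abs_nonneg _) (by rw [abs_of_pos] <;> norm_num)⟩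

/-- **Theorem.** (1) If `f : ℕ → 𝕌` is multiplicative and `∑_p (1 - |f(p)|)/p = ∞`, then `f` is
not pretentious, its only Furstenberg system for Cesàro averages is the point mass at the zero
sequence, and `f` is completely deterministic.  (2) Hence there is a nowhere vanishing completely
multiplicative `f : ℕ → 𝕌` that is not pretentious and completely deterministic. -/
theorem result :
    (∀ f : ℕ → Disc, IsMult f →
      ¬ Summable (fun p : Nat.Primes => (1 - ‖(f p : ℂ)‖) / ((p : ℕ) : ℝ)) →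
      ¬ Pretentious f ∧
      (∀ μ : Measure X, IsFurstenberg f μ → μ = Measure.dirac (fun _ => zeroD)) ∧
      CompletelyDeterministic f) ∧
    ∃ f : ℕ → Disc, IsMult f ∧
      (∀ m n : ℕ, 0 < m → 0 < n → (f (m * n) : ℂ) = (f m : ℂ) * (f n : ℂ)) ∧
      (∀ n : ℕ, (f n : ℂ) ≠ 0) ∧ ¬ Pretentious f ∧ CompletelyDeterministic f := by
  have main : ∀ f : ℕ → Disc, IsMult f →
      ¬ Summable (fun p : Nat.Primes => (1 - ‖(f p : ℂ)‖) / ((p : ℕ) : ℝ)) →
      ¬ Pretentious f ∧
      (∀ μ : Measure X, IsFurstenberg f μ → μ = Measure.dirac (fun _ => zeroD)) ∧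
      CompletelyDeterministic f := by
    intro f hf hns
    refine ⟨not_pretentious hns, fun μ hμ => eq_dirac hf hns hμ, fun μ hμ => ?_⟩
    rw [eq_dirac hf hns hμ]
    exact ksEntropy_dirac _
  refine ⟨main, halfOmega, ?_⟩
  have hcm : ∀ m n : ℕ, 0 < m → 0 < n →
      (halfOmega (m * n) : ℂ) = (halfOmega m : ℂ) * (halfOmega n : ℂ) := by
    intro m n hm hn
    unfold halfOmega
    simp only
    rw [ArithmeticFunction.cardFactors_mul hm.ne' hn.ne', pow_add]
    push_cast
    ring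
  have hmult : IsMult halfOmega := by
    refine ⟨?_, fun m n hm hn _ => hcm m n hm hn⟩
    simp [halfOmega]
  have hns : ¬ Summable (fun p : Nat.Primes => (1 - ‖(halfOmega p : ℂ)‖) / ((p : ℕ) : ℝ)) := by
    intro hs
    apply Nat.Primes.not_summable_one_div
    have hs2 := hs.mul_left 2
    refine hs2.congr fun p => ?_
    have : ‖(halfOmega p : ℂ)‖ = 1 / 2 := by
      unfold halfOmega
      simp only
      rw [ArithmeticFunction.cardFactors_apply_prime p.2, Complex.norm_real]
      norm_num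
    rw [this]
    ring
  have h := main halfOmega hmult hns
  refine ⟨hmult, hcm, ?_, h.1, h.2.2⟩
  intro n
  unfold halfOmega
  simp

end Pool.Agent.Results.MP_e30989_nt.MeanZeroDeterministic
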